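import Pool.Agent.Helper11.NH.Sheet
import Pool.Agent.Helper94.PU.Step
open MeasureTheory Metric Set Filter Topology Real
open scoped ENNReal NNReal

/-!
Row ZIG of project NH: the zigzag path. Also: following an arm up to the unit circle.
-/

namespace H11ST
namespace NH

theorem line_in_ball_r {y e : E 2} {s s' : ℝ} (h0 : 0 ≤ s') (h1 : s' ≤ s) :
    ‖y + s' • e‖ ≤ max ‖y‖ ‖y + s • e‖ := by
  rcases eq_or_lt_of_le (h0.trans h1) with h | h
  · have : s' = s := le_antisymm h1 (by linarith)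
    rw [this]; exact le_max_right _ _
  have hc : Convex ℝ (closedBall (0 : E 2) (max ‖y‖ ‖y + s • e‖)) := convex_closedBall _ _
  have hy' : y ∈ closedBall (0 : E 2) (max ‖y‖ ‖y + s • e‖) := by
    rw [mem_closedBall, dist_zero_right]; exact le_max_left _ _
  have hs' : y + s • e ∈ closedBall (0 : E 2) (max ‖y‖ ‖y + s • e‖) := by
    rw [mem_closedBall, dist_zero_right]; exact le_max_right _ _
  have h2 := hc hy' hs' (a := 1 - s' / s) (b := s' / s)
    (by rw [sub_nonneg, div_le_one h]; exact h1) (div_nonneg h0 h.le) (by ring)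
  rw [mem_closedBall, dist_zero_right] at h2
  have e1 : (1 - s' / s) • y + (s' / s) • (y + s • e) = y + s' • e := by
    rw [smul_add, smul_smul, div_mul_cancel₀ _ h.ne', ← add_assoc, ← add_smul]
    simp
  rwa [e1] at h2

/-- the first tripod point on a ray -/
theorem ray_step_r {S : Set (E 2)} (hS : IsClosed S) {r : ℝ}
    (hreg : ∀ z ∈ S ∩ ball 0 r, (∃ u ε, Lin S z u ε) ∨ ∃ u ε, Tri S z u ε) {y e : E 2} {s ε₀ : ℝ}
    (he : ‖e‖ = 1) (hy : ‖y‖ < r) (hs : ‖y + s • e‖ < r) (hs0 : 0 < s) (hε₀ : 0 < ε₀)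
    (hstart : ∀ s', 0 < s' → s' < ε₀ → ∃ ε, Lin S (y + s' • e) e ε) :
    (∀ s', 0 < s' → s' ≤ s → ∃ ε, Lin S (y + s' • e) e ε) ∨
    ∃ s', 0 < s' ∧ s' ≤ s ∧ PU.Ray S y e s' ∧ ∃ u ε, Tri S (y + s' • e) u ε ∧ u 0 = -e := by
  have hbd : ∀ s', 0 ≤ s' → s' ≤ s → ‖y + s' • e‖ ≤ max ‖y‖ ‖y + s • e‖ := fun s' h0 h1 =>
    line_in_ball_r h0 h1
  have hm : max ‖y‖ ‖y + s • e‖ < r := max_lt hy hs
  set Bad : Set ℝ := {s' | 0 < s' ∧ s' ≤ s ∧ ∃ u ε, Tri S (y + s' • e) u ε} with hBad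
  have hfin : Bad.Finite := by
    have h1 := tri_finite hS (x := (0 : E 2)) hm hreg
    have hinj : Set.InjOn (fun s' : ℝ => y + s' • e) Bad := by
      intro a _ b _ hab
      have h2 : a • e = b • e := add_left_cancel hab
      have h3 : e ≠ 0 := by
        rintro rfl
        rw [norm_zero] at he
        norm_num at he
      exact smul_left_injective ℝ h3 h2
    refine Set.Finite.of_finite_image (h1.subset ?_) hinj
    rintro _ ⟨s', ⟨h2, h3, u, ε, hT⟩, rfl⟩
    have hz : y + s' • e ∈ S := by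
      have := hT.mem (i := 0) (s := 0) le_rfl hT.pos
      simpa using this
    refine ⟨⟨hz, ?_⟩, u, ε, hT⟩
    rw [mem_closedBall, dist_zero_right]
    exact hbd s' h2.le h3
  by_cases hne : Bad.Nonempty
  · right
    obtain ⟨s', hs', hmin⟩ := hfin.exists_minimal hne
    have hmin' : ∀ t ∈ Bad, s' ≤ t := fun t ht => by
      rcases le_total s' t with h | h
      · exact h
      · exact hmin ht h
    obtain ⟨h2, h3, u, ε, hT⟩ := hs'
    have hray : PU.Ray S y e s' := by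
      intro t ht0 ht1
      refine follow hS he hε₀ (s₁ := t) ht0 hstart ?_ t ht0 le_rfl
      intro q hq0 hq1 hqS
      have hqb : y + q • e ∈ S ∩ ball 0 r := by
        refine ⟨hqS, ?_⟩
        rw [mem_ball, dist_zero_right]
        exact (hbd q hq0.le (by linarith)).trans_lt hm
      rcases hreg _ hqb with h | h
      · exact h
      · exfalso
        have := hmin' q ⟨hq0, by linarith, h⟩
        linarith
    refine ⟨s', h2, h3, hray, ?_⟩
    -- the arm `-e`
    obtain ⟨i, hi⟩ : ∃ i, u i = -e := by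
      set r := min s' ε / 2 with hr
      have hr0 : 0 < r := by
        have := lt_min h2 hT.pos
        rw [hr]; linarith
      have hr1 : r < s' := by
        have := min_le_left s' ε
        rw [hr]; linarith
      have hr2 : r < ε := by
        have := min_le_right s' ε
        have := hT.pos
        rw [hr]; linarith
      obtain ⟨ε', hL⟩ := hray (s' - r) (by linarith) (by linarith)
      have e1 : y + (s' - r) • e = y + s' • e + r • (-e) := by
        rw [sub_smul, smul_neg]; abel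
      have h4 : y + s' • e + r • (-e) ∈ S ∩ ball (y + s' • e) ε := by
        refine ⟨by rw [← e1]; exact hL.z_mem, ?_⟩
        rw [mem_ball, dist_eq_norm]
        simp only [add_sub_cancel_left, smul_neg, norm_neg, norm_smul, he, Real.norm_eq_abs, mul_one,
          abs_of_pos hr0]
        exact hr2
      rw [hT.eq] at h4
      obtain ⟨i, t, ht0, _, ht⟩ := h4
      refine ⟨i, ?_⟩
      have h5 : r • (-e) = t • u i := add_left_cancel ht
      have h6 : r = t := by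
        have := congrArg norm h5
        rw [norm_smul, norm_smul, norm_neg, he, hT.norm i, Real.norm_eq_abs, Real.norm_eq_abs,
          abs_of_pos hr0, abs_of_nonneg ht0, mul_one, mul_one] at this
        exact this
      rw [← h6] at h5
      exact (smul_right_injective _ hr0.ne' h5).symm
    refine ⟨u ∘ (Equiv.swap 0 i), ε, PU.tri_perm hT _, ?_⟩
    rw [Function.comp_apply, Equiv.swap_apply_left]
    exact hi
  · left
    refine follow hS he hε₀ hs0 hstart ?_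
    intro q hq0 hq1 hqS
    have hqb : y + q • e ∈ S ∩ ball 0 r := by
      refine ⟨hqS, ?_⟩
      rw [mem_ball, dist_zero_right]
      exact (hbd q hq0.le hq1).trans_lt hm
    rcases hreg _ hqb with h | h
    · exact h
    · exact absurd ⟨q, hq0, hq1, h⟩ hne

/-- a ray from a point of the open unit disc leaves it -/
theorem exit_unit {y e : E 2} (he : ‖e‖ = 1) (hy : ‖y‖ < 1) :
    ∃ s : ℝ, 0 < s ∧ ‖y + s • e‖ = 1 ∧ ∀ s', 0 ≤ s' → s' < s → ‖y + s' • e‖ < 1 := by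
  have hc : ContinuousOn (fun s : ℝ => ‖y + s • e‖) (Icc 0 2) := by fun_prop
  have h2 : (1 : ℝ) ≤ ‖y + (2 : ℝ) • e‖ := by
    have h3 : ‖(2 : ℝ) • e‖ ≤ ‖y + (2 : ℝ) • e‖ + ‖y‖ := by
      have h4 : (2 : ℝ) • e = (y + (2 : ℝ) • e) - y := by abel
      calc ‖(2 : ℝ) • e‖ = ‖(y + (2 : ℝ) • e) - y‖ := by rw [← h4]
        _ ≤ _ := norm_sub_le _ _
    rw [norm_smul, he, Real.norm_eq_abs, abs_of_pos (by norm_num : (0 : ℝ) < 2)] at h3
    linarith
  obtain ⟨s, ⟨hs0, -⟩, hs1⟩ := intermediate_value_Icc (by norm_num : (0 : ℝ) ≤ 2) hc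
    (show (1 : ℝ) ∈ Icc _ _ from ⟨by simpa using hy.le, h2⟩)
  have hs1' : ‖y + s • e‖ = 1 := hs1
  have hspos : 0 < s := by
    rcases hs0.eq_or_lt with h | h
    · exfalso
      rw [← h] at hs1'
      simp only [zero_smul, add_zero] at hs1'
      linarith
    · exact h
  refine ⟨s, hspos, hs1', fun s' h0 h1 => ?_⟩
  have e1 : (1 - s' / s) • y + (s' / s) • (y + s • e) = y + s' • e := by
    rw [smul_add, smul_smul, div_mul_cancel₀ _ hspos.ne', ← add_assoc, ← add_smul]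
    simp
  have hq0 : 0 ≤ s' / s := div_nonneg h0 hspos.le
  have hq1 : s' / s < 1 := by rw [div_lt_one hspos]; exact h1
  rw [← e1]
  calc ‖(1 - s' / s) • y + (s' / s) • (y + s • e)‖
      ≤ ‖(1 - s' / s) • y‖ + ‖(s' / s) • (y + s • e)‖ := norm_add_le _ _
    _ = (1 - s' / s) * ‖y‖ + s' / s := by
        rw [norm_smul, norm_smul, hs1', Real.norm_eq_abs, Real.norm_eq_abs, abs_of_nonneg hq0,
          abs_of_pos (by linarith), mul_one]
    _ < 1 := by nlinarith

/-- following an arm up to the first tripod point or the unit circle -/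
theorem ray_unit {A S : Set (E 2)} {r : ℝ} (h : Setup A S r) {y e : E 2} {ε₀ : ℝ}
    (he : ‖e‖ = 1) (hyS : y ∈ S) (hy : ‖y‖ < 1) (hε₀ : 0 < ε₀)
    (hstart : ∀ s', 0 < s' → s' < ε₀ → ∃ ε, Lin S (y + s' • e) e ε) :
    ∃ s : ℝ, 0 < s ∧ (∀ s', 0 ≤ s' → s' < s → ‖y + s' • e‖ < 1) ∧ ‖y + s • e‖ ≤ 1 ∧
      PU.Ray S y e s ∧ (∀ s', 0 ≤ s' → s' ≤ s → y + s' • e ∈ S) ∧
      (‖y + s • e‖ = 1 ∨ ‖y + s • e‖ < 1 ∧ ∃ u ε, Tri S (y + s • e) u ε ∧ u 0 = -e) := by
  obtain ⟨s₁, h1, h2, h3⟩ := exit_unit he hy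
  rcases ray_step_r h.L.hS h.reg he (hy.trans h.r1) (by rw [h2]; exact h.r1) h1 hε₀ hstart with
    h4 | ⟨s', a1, a2, a3, u, ε, hT, hu⟩
  · refine ⟨s₁, h1, h3, h2.le, fun s' b1 b2 => h4 s' b1 b2.le, fun s' b1 b2 => ?_, Or.inl h2⟩
    rcases b1.eq_or_lt with b | b
    · rw [← b]; simpa using hyS
    · obtain ⟨ε, hL⟩ := h4 s' b b2
      exact hL.z_mem
  · have hmem : ∀ t, 0 ≤ t → t ≤ s' → y + t • e ∈ S := by
      intro t b1 b2
      rcases b1.eq_or_lt with b | b
      · rw [← b]; simpa using hyS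
      · rcases b2.eq_or_lt with b' | b'
        · rw [b']
          have := hT.mem (i := 0) (s := 0) le_rfl hT.pos
          simpa using this
        · obtain ⟨ε, hL⟩ := a3 t b b'
          exact hL.z_mem
    rcases a2.eq_or_lt with a | a
    · subst a
      exact ⟨s', a1, h3, h2.le, a3, hmem, Or.inl h2⟩
    · exact ⟨s', a1, fun t b1 b2 => h3 t b1 (b2.trans a), (h3 s' a1.le a).le, a3, hmem,
        Or.inr ⟨h3 s' a1.le a, u, ε, hT, hu⟩⟩

/-- the segment `y + s • e`, `s ∈ [0, t]` as an image -/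
theorem seg_img (y e : E 2) (t : ℝ) : IsCompact ((fun s : ℝ => y + s • e) '' Icc 0 t) ∧
    IsPreconnected ((fun s : ℝ => y + s • e) '' Icc 0 t) := by
  have hc : Continuous fun s : ℝ => y + s • e := by fun_prop
  exact ⟨isCompact_Icc.image hc, isPreconnected_Icc.image _ hc.continuousOn⟩

/-- the zigzag path in frames -/
theorem zig_aux {A S : Set (E 2)} {r : ℝ} (h : Setup A S r) {ν : E 2} : ∀ (n : ℕ) (τ y : E 2),
    PU.Fr τ ν → PU.TA S τ ν y → ‖y‖ < 1 →
    {z ∈ S ∩ closedBall 0 1 | (∃ u ε, Tri S z u ε) ∧ inner ℝ y ν < (inner ℝ z ν : ℝ)}.ncard < n →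
    ∃ (P : Set (E 2)) (p : E 2), IsCompact P ∧ IsPreconnected P ∧ y ∈ P ∧ p ∈ P ∧ ‖p‖ = 1 ∧
      P ⊆ S ∧ P ⊆ closedBall 0 1 ∧
      P ⊆ {w | ∃ a b : ℝ, 0 ≤ a ∧ 0 ≤ b ∧ w = y + a • PU.e1 τ ν + b • PU.e2 τ ν} := by
  intro n
  induction n with
  | zero => intro τ y _ _ _ hn; exact absurd hn (Nat.not_lt_zero _)
  | succ n ih =>
    intro τ y hF hTA hy hn
    have hTA' := hTA
    obtain ⟨u, ε, hT, h0, h1, h2⟩ := hTA'
    have hyS : y ∈ S := by
      have := hT.mem (i := 0) (s := 0) le_rfl hT.pos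
      simpa using this
    obtain ⟨ε₀, hε₀, hst⟩ := PU.tri_arm hT 1
    rw [h1] at hst
    obtain ⟨s, hs, b1, b2, b3, b4, b5⟩ := ray_unit h hF.e2_unit hyS hy hε₀ hst
    set Q : Set (E 2) := (fun t : ℝ => y + t • PU.e2 τ ν) '' Icc 0 s with hQ
    have hQ1 := seg_img y (PU.e2 τ ν) s
    have hQy : y ∈ Q := ⟨0, ⟨le_rfl, hs.le⟩, by simp⟩
    have hQe : y + s • PU.e2 τ ν ∈ Q := ⟨s, ⟨hs.le, le_rfl⟩, rfl⟩
    have hQS : Q ⊆ S := by
      rintro _ ⟨t, ⟨ht0, ht1⟩, rfl⟩
      exact b4 t ht0 ht1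
    have hQb : Q ⊆ closedBall 0 1 := by
      rintro _ ⟨t, ⟨ht0, ht1⟩, rfl⟩
      rw [mem_closedBall, dist_zero_right]
      rcases ht1.eq_or_lt with c | c
      · rw [c]; exact b2
      · exact (b1 t ht0 c).le
    have hQc : Q ⊆ {w | ∃ a b : ℝ, 0 ≤ a ∧ 0 ≤ b ∧ w = y + a • PU.e1 τ ν + b • PU.e2 τ ν} := by
      rintro _ ⟨t, ⟨ht0, ht1⟩, rfl⟩
      exact ⟨0, t, le_rfl, ht0, by simp⟩
    rcases b5 with b5 | ⟨b5, v, ε', hT', hv⟩
    · exact ⟨Q, y + s • PU.e2 τ ν, hQ1.1, hQ1.2, hQy, hQe, b5, hQS, hQb, hQc⟩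
    · set y' := y + s • PU.e2 τ ν with hy'
      have hTA2 : PU.TA S (-τ) ν y' := PU.ta_of_neg' hF hT' hv
      have hin : (inner ℝ y' ν : ℝ) = inner ℝ y ν + s * (√3 / 2) := by
        rw [hy', inner_add_left, inner_smul_left, hF.e2n, conj_trivial]
      have hlt : (inner ℝ y ν : ℝ) < inner ℝ y' ν := by
        rw [hin]
        have : 0 < s * (√3 / 2) := by positivity
        linarith
      have hfin : {z ∈ S ∩ closedBall 0 1 | (∃ u ε, Tri S z u ε) ∧
          inner ℝ y ν < (inner ℝ z ν : ℝ)}.Finite :=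
        (tri_finite h.L.hS (x := (0 : E 2)) h.r1 h.reg).subset fun z hz => ⟨hz.1, hz.2.1⟩
      have hy'm : y' ∈ {z ∈ S ∩ closedBall 0 1 | (∃ u ε, Tri S z u ε) ∧
          inner ℝ y ν < (inner ℝ z ν : ℝ)} := ⟨⟨hQS hQe, hQb hQe⟩, ⟨v, ε', hT'⟩, hlt⟩
      have hss : {z ∈ S ∩ closedBall 0 1 | (∃ u ε, Tri S z u ε) ∧
          inner ℝ y' ν < (inner ℝ z ν : ℝ)} ⊂ {z ∈ S ∩ closedBall 0 1 | (∃ u ε, Tri S z u ε) ∧
          inner ℝ y ν < (inner ℝ z ν : ℝ)} := by
        refine ⟨fun z hz => ⟨hz.1, hz.2.1, hlt.trans hz.2.2⟩, fun hc => ?_⟩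
        exact lt_irrefl _ (hc hy'm).2.2
      have hn' := Set.ncard_lt_ncard hss hfin
      obtain ⟨P, p, c1, c2, c3, c4, c5, c6, c7, c8⟩ := ih (-τ) y' hF.neg hTA2 b5 (by omega)
      refine ⟨Q ∪ P, p, hQ1.1.union c1, IsPreconnected.union y' hQe c3 hQ1.2 c2, Or.inl hQy,
        Or.inr c4, c5, union_subset hQS c6, union_subset hQb c7, union_subset hQc ?_⟩
      intro w hw
      obtain ⟨a, b, ha, hb, rfl⟩ := c8 hw
      rw [PU.e1_neg, PU.e2_neg]
      refine ⟨b, s + a, hb, by linarith, ?_⟩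
      rw [hy', add_smul]
      abel

/-- the frame of a direction -/
theorem frame (β σ : ℝ) (hσ : σ = 1 ∨ σ = -1) : PU.Fr (ev β) (ev (β + σ * (π / 2))) ∧
    PU.e1 (ev β) (ev (β + σ * (π / 2))) = ev (β + σ * (π / 3)) ∧
    PU.e2 (ev β) (ev (β + σ * (π / 2))) = ev (β + σ * (2 * π / 3)) := by
  have h3 : cos (2 * π / 3) = -(1 / 2) := by
    rw [show 2 * π / 3 = π - π / 3 by ring, cos_pi_sub, cos_pi_div_three]
  have h4 : sin (2 * π / 3) = √3 / 2 := by
    rw [show 2 * π / 3 = π - π / 3 by ring, sin_pi_sub, sin_pi_div_three]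
  refine ⟨⟨norm_ev _, norm_ev _, ?_⟩, ?_, ?_⟩
  · rw [inner_ev]
    rcases hσ with rfl | rfl
    · rw [show β - (β + 1 * (π / 2)) = -(π / 2) by ring, cos_neg, cos_pi_div_two]
    · rw [show β - (β + -1 * (π / 2)) = π / 2 by ring, cos_pi_div_two]
  · have g0 : (ev (β + σ * (π / 3)) : E2) 0 = cos (β + σ * (π / 3)) := rfl
    have g1 : (ev (β + σ * (π / 3)) : E2) 1 = sin (β + σ * (π / 3)) := rfl
    refine PU.ext2 ?_ ?_
    · rw [g0, PU.e1]
      change √3 / 2 * cos (β + σ * (π / 2)) + 1 / 2 * cos β = _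
      rcases hσ with rfl | rfl
      · rw [one_mul, one_mul, cos_add_pi_div_two, cos_add, cos_pi_div_three, sin_pi_div_three]; ring
      · rw [show β + -1 * (π / 2) = β - π / 2 by ring, show β + -1 * (π / 3) = β - π / 3 by ring,
          cos_sub_pi_div_two, cos_sub, cos_pi_div_three, sin_pi_div_three]; ring
    · rw [g1, PU.e1]
      change √3 / 2 * sin (β + σ * (π / 2)) + 1 / 2 * sin β = _
      rcases hσ with rfl | rfl
      · rw [one_mul, one_mul, sin_add_pi_div_two, sin_add, cos_pi_div_three, sin_pi_div_three]; ring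
      · rw [show β + -1 * (π / 2) = β - π / 2 by ring, show β + -1 * (π / 3) = β - π / 3 by ring,
          sin_sub_pi_div_two, sin_sub, cos_pi_div_three, sin_pi_div_three]; ring
  · have g0 : (ev (β + σ * (2 * π / 3)) : E2) 0 = cos (β + σ * (2 * π / 3)) := rfl
    have g1 : (ev (β + σ * (2 * π / 3)) : E2) 1 = sin (β + σ * (2 * π / 3)) := rfl
    refine PU.ext2 ?_ ?_
    · rw [g0, PU.e2]
      change √3 / 2 * cos (β + σ * (π / 2)) - 1 / 2 * cos β = _
      rcases hσ with rfl | rfl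
      · rw [one_mul, one_mul, cos_add_pi_div_two, cos_add, h3, h4]; ring
      · rw [show β + -1 * (π / 2) = β - π / 2 by ring,
          show β + -1 * (2 * π / 3) = β - 2 * π / 3 by ring,
          cos_sub_pi_div_two, cos_sub, h3, h4]; ring
    · rw [g1, PU.e2]
      change √3 / 2 * sin (β + σ * (π / 2)) - 1 / 2 * sin β = _
      rcases hσ with rfl | rfl
      · rw [one_mul, one_mul, sin_add_pi_div_two, sin_add, h3, h4]; ring
      · rw [show β + -1 * (π / 2) = β - π / 2 by ring,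
          show β + -1 * (2 * π / 3) = β - 2 * π / 3 by ring,
          sin_sub_pi_div_two, sin_sub, h3, h4]; ring

theorem zig : NH_ZIG := by
  intro A S r h v β σ hσ hvS hv hend
  rcases hv.eq_or_lt with hv1 | hv1
  · refine ⟨{v}, v, isCompact_singleton, isPreconnected_singleton, rfl, rfl, hv1, ?_, ?_, ?_,
      fun _ => rfl⟩
    · rintro _ rfl; exact hvS
    · rintro _ rfl; rw [mem_closedBall, dist_zero_right]; exact hv
    · rintro _ rfl; exact ⟨0, 0, le_rfl, le_rfl, by simp⟩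
  · rcases hend with h1 | ⟨u, ε, hT, j, hj⟩
    · exact absurd h1 hv1.ne
    · obtain ⟨f1, f2, f3⟩ := frame β σ hσ
      have hT' := PU.tri_perm hT (Equiv.swap 0 j)
      have hTA : PU.TA S (-ev β) (ev (β + σ * (π / 2))) v :=
        PU.ta_of_neg f1 hT' (by rw [Function.comp_apply, Equiv.swap_apply_left, hj])
      obtain ⟨P, p, c1, c2, c3, c4, c5, c6, c7, c8⟩ := zig_aux h _ _ v f1.neg hTA hv1 (Nat.lt_succ_self _)
      refine ⟨P, p, c1, c2, c3, c4, c5, c6, c7, ?_, fun h1 => absurd h1 hv1.ne⟩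
      intro w hw
      obtain ⟨a, b, ha, hb, rfl⟩ := c8 hw
      refine ⟨b, a, hb, ha, ?_⟩
      rw [PU.e1_neg, PU.e2_neg, f2, f3]
      abel

end NH
end H11ST
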